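import Pool.Agent.Q53.LFB.Plane
import Pool.Agent.Q168.CF4.Red
import Pool.Agent.Q168.CF4.Num

/-!
# Cubic fourfolds with small discriminant
-/

set_option autoImplicit false

namespace Pool.Agent.Q53.LFB

open Pool.Agent.Q168.CF4

open Pool.Agent.Q53.LFY Pool.Agent.Q53.LFY.CubLat Pool.Agent.Q53.LFA Module

variable {H : CubLat}

/-- The discriminant of the group of the Hodge vectors: the determinant of the matrix of the form in
a basis. -/
noncomputable def discA {r : ℕ} (b : Basis (Fin r) ℤ H.hodge) : ℤ :=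
  (Matrix.of fun i j : Fin r => H.ip (b i) (b j)).det

theorem isForm (hH : H.IsCubic) :
    Red.IsForm (fun x y : H.hodge => H.ip (x : Fin 23 → ℤ) (y : Fin 23 → ℤ)) where
  add_left x y z := by simp only [Submodule.coe_add, ip_add_left]
  smul_left k x z := by simp only [Submodule.coe_smul, ip_smul_left]
  comm x y := hH.comm _ _
  pos x hx := hH.pos _ x.2 (fun h => hx (Subtype.ext h))

/-- the reduced sequence of the form `D` -/
structure Seq (H : CubLat) (l : List ℚ) : Prop where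
  pos : ∀ x ∈ l, 0 < x
  chain : l.IsChain (fun x y => 3 / 4 * x ≤ y)
  head : ∀ x, l.head? = some x → ∃ v, H.IsHodge v ∧ 0 < H.disc v ∧ (H.disc v : ℚ) = x ∧
    (∀ w, H.IsHodge w → 0 < H.disc w → H.disc v ≤ H.disc w) ∧
    ∀ w, H.IsHodge w → ∃ (y : Fin 23 → ℤ) (t : ℤ), H.IsHodge y ∧
      (H.disc (w + (2 : ℤ) • y + t • v) : ℚ) ≤ l.sum - 3 / 4 * x

theorem exists_seq (hH : H.IsCubic) {n : ℕ} (b : Basis (Fin (n + 1)) ℤ H.hodge) :
    ∃ l : List ℚ, l.length = n ∧ 3 * l.prod = 3 ^ n * (discA b : ℚ) ∧ Seq H l := by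
  have hB := isForm hH
  have hv : (⟨H.h, hH.h_hodge⟩ : H.hodge) ≠ 0 := by
    intro h0
    have h1 : H.h = 0 := congrArg Subtype.val h0
    have h2 := hH.h_self
    rw [h1, ip_zero_left] at h2
    omega
  obtain ⟨c, hc1, hc2, hB', hdet⟩ := Red.step hB b hv (by
    intro k m x hk h
    obtain ⟨t, -, ht⟩ := hH.h_prim (g := k) (c := m) (z := (x : Fin 23 → ℤ)) hk (by
      have := congrArg Subtype.val h
      simpa using this)
    exact ⟨t, Subtype.ext (by simpa using ht)⟩)
  obtain ⟨l, hl1, hl2, hl3⟩ := Red.exists_red n _ _ hB' (Pi.basisFun ℤ (Fin n))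
  have hg : (Red.gram (fun x y : H.hodge => H.ip (x : Fin 23 → ℤ) (y : Fin 23 → ℤ)) b).det =
      discA b := rfl
  simp only [hH.h_self] at hdet hl2 hl3 hB'
  rw [hg] at hdet
  have hD : ∀ x : Fin n → ℤ, 3 * H.ip (Red.comb c x : H.hodge) (Red.comb c x : H.hodge) -
      H.ip (Red.comb c x : H.hodge) H.h * H.ip (Red.comb c x : H.hodge) H.h =
      H.disc (Red.comb c x : H.hodge) := by
    intro x
    rw [← D_self hH, D]
  have hDk : ∀ (k : ℤ) (x : Fin n → ℤ) (w : Fin 23 → ℤ),
      w = k • H.h + (Red.comb c x : H.hodge) → H.disc w = H.disc (Red.comb c x : H.hodge) := by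
    intro k x w hw
    have := hH.disc_comb 1 k (Red.comb c x : H.hodge)
    rw [one_smul, one_pow, one_mul, add_comm] at this
    rw [hw]
    exact this
  refine ⟨l, hl1, ?_, hl3.pos, hl3.chain, ?_⟩
  · rw [hl2]
    exact_mod_cast hdet
  · intro x hx
    obtain ⟨v, hv0, hvx, hmin, hcos⟩ := hl3.head x hx
    have hpos := hB'.pos v hv0
    rw [hD] at hpos hvx
    refine ⟨(Red.comb c v : H.hodge), (Red.comb c v).2, hpos, hvx, fun w hw hw0 => ?_,
      fun w hw => ?_⟩
    · obtain ⟨k, y, hy⟩ := hc1 ⟨w, hw⟩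
      have h1 : w = k • H.h + (Red.comb c y : H.hodge) := by
        have := congrArg Subtype.val hy
        simpa using this
      have h2 := hDk k y w h1
      have h3 : y ≠ 0 := by
        rintro rfl
        rw [h2] at hw0
        have h4 : (Red.comb c (0 : Fin n → ℤ)) = 0 := by simp [Red.comb]
        rw [h4] at hw0
        simp [disc, ip_zero_right] at hw0
      have h5 := hmin y h3
      rw [hD, hD] at h5
      rw [h2]
      exact h5
    · obtain ⟨k, y, hy⟩ := hc1 ⟨w, hw⟩
      have h1 : w = k • H.h + (Red.comb c y : H.hodge) := by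
        have := congrArg Subtype.val hy
        simpa using this
      obtain ⟨y', t, hy'⟩ := hcos y
      refine ⟨(Red.comb c y' : H.hodge), t, (Red.comb c y').2, ?_⟩
      rw [hD] at hy'
      have h2 : w + (2 : ℤ) • ((Red.comb c y' : H.hodge) : Fin 23 → ℤ) +
          t • ((Red.comb c v : H.hodge) : Fin 23 → ℤ) =
          k • H.h + (Red.comb c (y + (2 : ℤ) • y' + t • v) : H.hodge) := by
        rw [Red.comb_add, Red.comb_add, Red.comb_smul, Red.comb_smul, h1]
        simp only [Submodule.coe_add, Submodule.coe_smul]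
        abel
      rw [hDk _ _ _ h2]
      exact hy'

theorem discA_pos (hH : H.IsCubic) {r : ℕ} (b : Basis (Fin r) ℤ H.hodge) : 0 < discA b := by
  match r, b with
  | 0, b => simp [discA]
  | n + 1, b =>
    obtain ⟨l, hl1, hl2, hl3⟩ := exists_seq hH b
    have h1 : 0 < l.prod := List.prod_pos hl3.pos
    have h2 : (0 : ℚ) < 3 ^ n * (discA b : ℚ) := by rw [← hl2]; linarith
    have h3 : (0 : ℚ) < discA b := (mul_pos_iff_of_pos_left (by positivity)).1 h2
    exact_mod_cast h3

/-- a class of discriminant eight gives a plane -/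
theorem pl_of_eight (hH : H.IsCubic) {v : Fin 23 → ℤ} (hv : H.IsHodge v)
    (h8 : H.disc v = 8) : ∃ (P : Fin 23 → ℤ) (s k : ℤ), H.IsPl P ∧ v = s • P + k • H.h := by
  obtain ⟨a, ha⟩ : ∃ a, a = H.ip v H.h := ⟨_, rfl⟩
  have h1 : 3 * H.ip v v - a ^ 2 = 8 := by rw [← h8, disc, hH.comm H.h v, ha]
  have h2 : a % 3 = 1 ∨ a % 3 = 2 := by
    have h3 : a % 3 = 0 ∨ a % 3 = 1 ∨ a % 3 = 2 := by omega
    rcases h3 with h | h | h
    · exfalso
      obtain ⟨q, hq⟩ : ∃ q, a = 3 * q := ⟨a / 3, by omega⟩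
      rw [hq] at h1
      have : 3 * (H.ip v v - 3 * q ^ 2) = 8 := by linarith
      omega
    · exact Or.inl h
    · exact Or.inr h
  rcases h2 with h | h
  · obtain ⟨q, hq⟩ : ∃ q, a = 3 * q + 1 := ⟨a / 3, by omega⟩
    refine ⟨v - q • H.h, 1, q, ⟨H.isHodge_sub hv (H.isHodge_smul q hH.h_hodge), ?_, ?_⟩, by module⟩
    · rw [ip_sub_left, ip_smul_left, hH.h_self, ← ha, hq]; ring
    · simp only [ip_sub_left, ip_sub_right, ip_smul_left, ip_smul_right, hH.h_self,
        hH.comm H.h v, ← ha]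
      have : 3 * (H.ip v v - 2 * q * a + 3 * q ^ 2) = 9 := by
        rw [hq] at h1 ⊢
        linarith
      linarith
  · obtain ⟨q, hq⟩ : ∃ q, a = 3 * q - 1 := ⟨a / 3 + 1, by omega⟩
    refine ⟨q • H.h - v, -1, q, ⟨H.isHodge_sub (H.isHodge_smul q hH.h_hodge) hv, ?_, ?_⟩, by module⟩
    · rw [ip_sub_left, ip_smul_left, hH.h_self, ← ha, hq]; ring
    · simp only [ip_sub_left, ip_sub_right, ip_smul_left, ip_smul_right, hH.h_self,
        hH.comm H.h v, ← ha]
      have : 3 * (H.ip v v - 2 * q * a + 3 * q ^ 2) = 9 := by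
        rw [hq] at h1 ⊢
        linarith
      linarith

/-- the bound for cubic fourfolds with a plane -/
def planeBound : ℕ → ℤ
  | 2 => 8
  | 3 => 127
  | 4 => 223
  | 5 => 299
  | 6 => 307
  | 7 => 239
  | 8 => 142
  | _ => 0

theorem sum_bound {l : List ℚ} {n : ℕ} {d : ℤ} (hl : l.length = n)
    (hch : l.IsChain (fun x y => 3 / 4 * x ≤ y)) (h8 : l.head? = some 8)
    (hp : 3 * l.prod = 3 ^ n * (d : ℚ)) (hd0 : 0 < d) (hd : d ≤ planeBound (n + 1)) :
    l.sum < 56 := by
  have hdQ : (d : ℚ) ≤ planeBound (n + 1) := by exact_mod_cast hd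
  have hd0Q : (0 : ℚ) < d := by exact_mod_cast hd0
  match n, l, hl with
  | 0, [], _ => simp at h8
  | 1, [x], _ =>
    simp only [List.head?_cons, Option.some.injEq] at h8
    subst h8
    norm_num
  | 2, [x, x1], _ =>
    simp only [List.head?_cons, Option.some.injEq] at h8
    subst h8
    simp only [List.prod_cons, List.prod_nil, mul_one, List.sum_cons, List.sum_nil, add_zero] at hp ⊢
    norm_num [planeBound] at hdQ hp
    linarith
  | 3, [x, x1, x2], _ =>
    simp only [List.head?_cons, Option.some.injEq] at h8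
    subst h8
    simp only [List.prod_cons, List.prod_nil, mul_one, List.sum_cons, List.sum_nil, add_zero] at hp ⊢
    simp only [List.isChain_cons_cons, List.isChain_singleton, and_true] at hch
    by_contra hcon
    push Not at hcon
    have key := Num.num3 (x1 := (x1 : ℝ)) (x2 := (x2 : ℝ)) (by
      have : ((6 : ℚ) : ℝ) ≤ x1 := Rat.cast_le.2 (by linarith [hch.1])
      simpa using this) (by
      have : ((3 / 4 * x1 : ℚ) : ℝ) ≤ x2 := Rat.cast_le.2 hch.2
      simpa using this) (by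
      have : ((56 : ℚ) : ℝ) ≤ ((8 + (x1 + x2) : ℚ) : ℝ) := Rat.cast_le.2 hcon
      simpa using this)
    have key' : (2016 : ℚ) ≤ 8 * (x1 * x2) := by exact_mod_cast key
    norm_num [planeBound] at hdQ hp
    linarith
  | 4, [x, x1, x2, x3], _ =>
    simp only [List.head?_cons, Option.some.injEq] at h8
    subst h8
    simp only [List.prod_cons, List.prod_nil, mul_one, List.sum_cons, List.sum_nil, add_zero] at hp ⊢
    simp only [List.isChain_cons_cons, List.isChain_singleton, and_true] at hch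
    by_contra hcon
    push Not at hcon
    have key := Num.num4 (x1 := (x1 : ℝ)) (x2 := (x2 : ℝ)) (x3 := (x3 : ℝ)) (by
      have : ((6 : ℚ) : ℝ) ≤ x1 := Rat.cast_le.2 (by linarith [hch.1])
      simpa using this) (by
      have : ((3 / 4 * x1 : ℚ) : ℝ) ≤ x2 := Rat.cast_le.2 hch.2.1
      simpa using this) (by
      have : ((3 / 4 * x2 : ℚ) : ℝ) ≤ x3 := Rat.cast_le.2 hch.2.2
      simpa using this) (by
      have : ((56 : ℚ) : ℝ) ≤ ((8 + (x1 + (x2 + x3)) : ℚ) : ℝ) := Rat.cast_le.2 hcon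
      have e : ((8 + (x1 + (x2 + x3)) : ℚ) : ℝ) = 8 + ((x1 : ℝ) + x2 + x3) := by push_cast; ring
      rw [e] at this
      simpa using this)
    have key' : (8100 : ℚ) ≤ 8 * (x1 * (x2 * x3)) := by exact_mod_cast key
    norm_num [planeBound] at hdQ hp
    linarith
  | 5, [x, x1, x2, x3, x4], _ =>
    simp only [List.head?_cons, Option.some.injEq] at h8
    subst h8
    simp only [List.prod_cons, List.prod_nil, mul_one, List.sum_cons, List.sum_nil, add_zero] at hp ⊢
    simp only [List.isChain_cons_cons, List.isChain_singleton, and_true] at hch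
    by_contra hcon
    push Not at hcon
    have key := Num.num5 (x1 := (x1 : ℝ)) (x2 := (x2 : ℝ)) (x3 := (x3 : ℝ)) (x4 := (x4 : ℝ)) (by
      have : ((6 : ℚ) : ℝ) ≤ x1 := Rat.cast_le.2 (by linarith [hch.1])
      simpa using this) (by
      have : ((3 / 4 * x1 : ℚ) : ℝ) ≤ x2 := Rat.cast_le.2 hch.2.1
      simpa using this) (by
      have : ((3 / 4 * x2 : ℚ) : ℝ) ≤ x3 := Rat.cast_le.2 hch.2.2.1
      simpa using this) (by
      have : ((3 / 4 * x3 : ℚ) : ℝ) ≤ x4 := Rat.cast_le.2 hch.2.2.2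
      simpa using this) (by
      have : ((56 : ℚ) : ℝ) ≤ ((8 + (x1 + (x2 + (x3 + x4))) : ℚ) : ℝ) := Rat.cast_le.2 hcon
      have e : ((8 + (x1 + (x2 + (x3 + x4))) : ℚ) : ℝ) = 8 + ((x1 : ℝ) + x2 + x3 + x4) := by
        push_cast; ring
      rw [e] at this
      simpa using this)
    have key' : (199017 / 8 : ℚ) ≤ 8 * (x1 * (x2 * (x3 * x4))) :=
      (Rat.cast_le (K := ℝ)).1 (by push_cast; exact key)
    norm_num [planeBound] at hdQ hp
    linarith
  | 6, [x, x1, x2, x3, x4, x5], _ =>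
    simp only [List.head?_cons, Option.some.injEq] at h8
    subst h8
    simp only [List.prod_cons, List.prod_nil, mul_one, List.sum_cons, List.sum_nil, add_zero] at hp ⊢
    simp only [List.isChain_cons_cons, List.isChain_singleton, and_true] at hch
    by_contra hcon
    push Not at hcon
    have key := Num.num6 (x1 := (x1 : ℝ)) (x2 := (x2 : ℝ)) (x3 := (x3 : ℝ)) (x4 := (x4 : ℝ))
      (x5 := (x5 : ℝ)) (by
      have : ((6 : ℚ) : ℝ) ≤ x1 := Rat.cast_le.2 (by linarith [hch.1])
      simpa using this) (by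
      have : ((3 / 4 * x1 : ℚ) : ℝ) ≤ x2 := Rat.cast_le.2 hch.2.1
      simpa using this) (by
      have : ((3 / 4 * x2 : ℚ) : ℝ) ≤ x3 := Rat.cast_le.2 hch.2.2.1
      simpa using this) (by
      have : ((3 / 4 * x3 : ℚ) : ℝ) ≤ x4 := Rat.cast_le.2 hch.2.2.2.1
      simpa using this) (by
      have : ((3 / 4 * x4 : ℚ) : ℝ) ≤ x5 := Rat.cast_le.2 hch.2.2.2.2
      simpa using this) (by
      have : ((56 : ℚ) : ℝ) ≤ ((8 + (x1 + (x2 + (x3 + (x4 + x5)))) : ℚ) : ℝ) := Rat.cast_le.2 hcon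
      have e : ((8 + (x1 + (x2 + (x3 + (x4 + x5)))) : ℚ) : ℝ) =
          8 + ((x1 : ℝ) + x2 + x3 + x4 + x5) := by
        push_cast; ring
      rw [e] at this
      simpa using this)
    have key' : (59698539 / 1024 : ℚ) ≤ 8 * (x1 * (x2 * (x3 * (x4 * x5)))) :=
      (Rat.cast_le (K := ℝ)).1 (by push_cast; exact key)
    norm_num [planeBound] at hdQ hp
    linarith
  | 7, [x, x1, x2, x3, x4, x5, x6], _ =>
    simp only [List.head?_cons, Option.some.injEq] at h8
    subst h8
    simp only [List.prod_cons, List.prod_nil, mul_one, List.sum_cons, List.sum_nil, add_zero] at hp ⊢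
    simp only [List.isChain_cons_cons, List.isChain_singleton, and_true] at hch
    by_contra hcon
    push Not at hcon
    have key := Num.num7 (x1 := (x1 : ℝ)) (x2 := (x2 : ℝ)) (x3 := (x3 : ℝ)) (x4 := (x4 : ℝ))
      (x5 := (x5 : ℝ)) (x6 := (x6 : ℝ)) (by
      have : ((6 : ℚ) : ℝ) ≤ x1 := Rat.cast_le.2 (by linarith [hch.1])
      simpa using this) (by
      have : ((3 / 4 * x1 : ℚ) : ℝ) ≤ x2 := Rat.cast_le.2 hch.2.1
      simpa using this) (by
      have : ((3 / 4 * x2 : ℚ) : ℝ) ≤ x3 := Rat.cast_le.2 hch.2.2.1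
      simpa using this) (by
      have : ((3 / 4 * x3 : ℚ) : ℝ) ≤ x4 := Rat.cast_le.2 hch.2.2.2.1
      simpa using this) (by
      have : ((3 / 4 * x4 : ℚ) : ℝ) ≤ x5 := Rat.cast_le.2 hch.2.2.2.2.1
      simpa using this) (by
      have : ((3 / 4 * x5 : ℚ) : ℝ) ≤ x6 := Rat.cast_le.2 hch.2.2.2.2.2
      simpa using this) (by
      have : ((56 : ℚ) : ℝ) ≤ ((8 + (x1 + (x2 + (x3 + (x4 + (x5 + x6))))) : ℚ) : ℝ) :=
        Rat.cast_le.2 hcon
      have e : ((8 + (x1 + (x2 + (x3 + (x4 + (x5 + x6))))) : ℚ) : ℝ) =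
          8 + ((x1 : ℝ) + x2 + x3 + x4 + x5 + x6) := by
        push_cast; ring
      rw [e] at this
      simpa using this)
    have key' : (54540195507 / 524288 : ℚ) ≤ 8 * (x1 * (x2 * (x3 * (x4 * (x5 * x6))))) :=
      (Rat.cast_le (K := ℝ)).1 (by push_cast; exact key)
    norm_num [planeBound] at hdQ hp
    linarith
  | (n + 8), l, _ =>
    simp only [planeBound] at hd
    omega

/-- the parity of `D` with a class of discriminant eight -/
theorem even_eight (hH : H.IsCubic) (hev : ∀ P, H.IsPl P → ∀ T, H.IsHodge T → Even (D H P T))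
    {v : Fin 23 → ℤ} (hv : H.IsHodge v) (h8 : H.disc v = 8) {T : Fin 23 → ℤ} (hT : H.IsHodge T) :
    Even (D H v T) := by
  obtain ⟨P, s, k, hP, hv'⟩ := pl_of_eight hH hv h8
  rw [hv', D_add_left, D_smul_left, D_smul_left, D_h hH, mul_zero, add_zero]
  exact (hev P hP T hT).mul_left s

/-- **The case with a plane.** -/
theorem inK_of_plane (hH : H.IsCubic) {r : ℕ} (b : Basis (Fin r) ℤ H.hodge)
    (hd : discA b ≤ planeBound r) {P : Fin 23 → ℤ} (hP : H.IsPl P)
    (hev : ∀ P, H.IsPl P → ∀ T, H.IsHodge T → Even (D H P T))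
    {w : Fin 23 → ℤ} (hw : H.IsHodge w) (h4 : ¬ (4 : ℤ) ∣ H.disc w) : InK H := by
  have hpos := discA_pos hH b
  match r, b with
  | 0, b =>
    simp only [planeBound] at hd
    omega
  | 1, b =>
    simp only [planeBound] at hd
    omega
  | n + 2, b =>
    obtain ⟨l, hl1, hl2, hl3⟩ := exists_seq hH b
    have hP8 := plane_disc hH hP
    obtain ⟨x, hx⟩ : ∃ x, l.head? = some x := by
      cases l with
      | nil => simp at hl1
      | cons a l => exact ⟨a, rfl⟩
    obtain ⟨v, hv, hv0, hvx, hmin, hcos⟩ := hl3.head x hx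
    have hv8 : H.disc v = 8 := by
      have h1 := hmin P hP.1 (by omega)
      have h2 := disc_val hH hv
      omega
    have hx8 : x = 8 := by rw [← hvx, hv8]; norm_num
    subst hx8
    have hsum := sum_bound hl1 hl3.chain hx hl2 hpos hd
    obtain ⟨y, t, hy, hyt⟩ := hcos w hw
    have h50 : H.disc (w + (2 : ℤ) • y + t • v) < 50 := by
      have : (H.disc (w + (2 : ℤ) • y + t • v) : ℚ) < 50 := by linarith
      exact_mod_cast this
    have hz : H.IsHodge (w + (2 : ℤ) • y + t • v) :=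
      H.isHodge_add (H.isHodge_add hw (H.isHodge_smul 2 hy)) (H.isHodge_smul t hv)
    have h4' : ¬ (4 : ℤ) ∣ H.disc (w + (2 : ℤ) • y + t • v) := by
      have e := disc_comb3 hH 1 2 t w y v
      rw [one_smul] at e
      obtain ⟨c1, hc1⟩ := even_eight hH hev hv hv8 hw
      obtain ⟨c2, hc2⟩ := even_eight hH hev hv hv8 hy
      rw [hv8, D_comm hH w v, D_comm hH y v, hc1, hc2] at e
      rw [e]
      intro hdvd
      apply h4
      have : H.disc w = (1 ^ 2 * H.disc w + 2 ^ 2 * H.disc y + t ^ 2 * 8 +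
        2 * (1 * 2 * D H w y + 1 * t * (c1 + c1) + 2 * t * (c2 + c2))) -
          4 * (H.disc y + 2 * t ^ 2 + D H w y + t * c1 + 2 * t * c2) := by ring
      rw [this]
      exact dvd_sub hdvd (dvd_mul_right _ _)
    refine plane_two hH hP hz (hev P hP _ hz) ?_ h4'
    have := disc_val hH hz
    omega

end Pool.Agent.Q53.LFB
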