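import Pool.Agent.Q53.LFB.PlaneK3
import Pool.Agent.Q53.LFB.Disc

/-!
# Cubic fourfolds in `C_18`: the associated K3 surface
-/

set_option autoImplicit false

namespace Pool.Agent.Q53.LFB

open Pool.Agent.Q168.CF4

open Pool.Agent.Q53.LFY Pool.Agent.Q53.LFY.CubLat Pool.Agent.Q53.LFA Module

variable {H : CubLat}

/-- an admissible number is `2 mod 3` or `6 mod 18` -/
theorem admissible_mod {d : ℤ} (h : Admissible d) (h2 : d % 2 = 0) : d % 3 = 2 ∨ d % 18 = 6 := by
  obtain ⟨h6, h4, h9, hp⟩ := h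
  have key : ∀ e : ℤ, 0 < e → e % 2 = 1 → e % 3 ≠ 0 → e ∣ d → e % 3 = 1 := by
    intro e he0 he2 he3 hed
    have h1 : e.toNat % 3 = 1 := by
      refine one_mod_three _ (by omega) fun p hpp hpe => ?_
      have h2 : (p : ℤ) ∣ e := by
        have : (p : ℤ) ∣ (e.toNat : ℤ) := by exact_mod_cast hpe
        rwa [Int.toNat_of_nonneg he0.le] at this
      have hp2 : p ≠ 2 := by
        rintro rfl
        push_cast at h2
        omega
      have hp3 : p ≠ 3 := by
        rintro rfl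
        push_cast at h2
        omega
      have h3 := hp p hpp hp2 (h2.trans hed)
      have h4 : p % 3 ≠ 0 := fun h => hp3 ((Nat.prime_dvd_prime_iff_eq Nat.prime_three hpp).1
        (Nat.dvd_of_mod_eq_zero h)).symm
      omega
    omega
  obtain ⟨m, hm⟩ : ∃ m, d = 2 * m := ⟨d / 2, by omega⟩
  by_cases h3 : m % 3 = 0
  · right
    obtain ⟨e, he⟩ : ∃ e, m = 3 * e := ⟨m / 3, by omega⟩
    have := key e (by omega) (by omega) (by omega) ⟨6, by rw [hm, he]; ring⟩
    omega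
  · left
    have := key m (by omega) (by omega) h3 ⟨2, by rw [hm]; ring⟩
    omega

/-- the arithmetic: first case -/
theorem arith18a {c e : ℤ} (h : c % 3 = 1 ∨ (c % 3 = 0 ∧ e % 3 ≠ 0)) :
    ∃ x n : ℤ, 9 * x ^ 2 + 6 * e * x + 4 * c = n ^ 2 + n + 1 := by
  obtain ⟨q, hq⟩ : ∃ q, q = e ^ 2 := ⟨_, rfl⟩
  have he : (e % 3 = 0 ∧ q % 3 = 0) ∨ (e % 3 = 1 ∧ q % 3 = 1) ∨ (e % 3 = 2 ∧ q % 3 = 1) := by
    have h1 : e % 3 = 0 ∨ e % 3 = 1 ∨ e % 3 = 2 := by omega
    rw [hq, pow_two, Int.mul_emod]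
    rcases h1 with h1 | h1 | h1 <;> rw [h1] <;> norm_num
  have h2 : (4 * c - 1 - e - q) % 3 = 0 ∨ (-(4 * c - q - 1) - e) % 3 = 0 := by omega
  rcases h2 with h2 | h2
  · obtain ⟨x, hx⟩ : ∃ x, 4 * c - 1 - e - q = 3 * x := ⟨_, (Int.mul_ediv_cancel' (by omega)).symm⟩
    refine ⟨x, 4 * c - q - 1, ?_⟩
    have h3 : 9 * x ^ 2 + 6 * e * x + 4 * c = (3 * x + e) ^ 2 - q + 4 * c := by rw [hq]; ring
    rw [h3, ← hx]
    ring
  · obtain ⟨x, hx⟩ : ∃ x, -(4 * c - q - 1) - e = 3 * x := ⟨_, (Int.mul_ediv_cancel' (by omega)).symm⟩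
    refine ⟨x, -(4 * c - q), ?_⟩
    have h3 : 9 * x ^ 2 + 6 * e * x + 4 * c = (3 * x + e) ^ 2 - q + 4 * c := by rw [hq]; ring
    rw [h3, ← hx]
    ring

/-- the arithmetic: second case -/
theorem arith18b {c e : ℤ} (h : c % 9 = 3) :
    ∃ x n : ℤ, 9 * x ^ 2 + 6 * (3 * e) * x + 4 * c = n ^ 2 + n + 1 := by
  obtain ⟨t, ht⟩ : ∃ t, c = 9 * t + 3 := ⟨c / 9, by omega⟩
  refine ⟨4 * t + 1 - e ^ 2 - e, 3 * (4 * t + 1 - e ^ 2) + 1, ?_⟩
  rw [ht]
  ring

theorem hasK3_of_hilb (hH : H.IsCubic) (h : IsHilb H) : H.HasK3 := by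
  obtain ⟨v, hv, hs, a, n, ha, h⟩ := h
  have hv0 : 0 < H.disc v := by
    by_contra hcon
    push Not at hcon
    have h1 : a ^ 2 * H.disc v ≤ 0 := mul_nonpos_of_nonneg_of_nonpos (by positivity) hcon
    rw [h] at h1
    nlinarith [sq_nonneg (2 * n + 1)]
  exact ⟨v, hv, hs, hH.six_lt hv hv0, four_not_dvd h, nine_not_dvd h,
    fun p hp hp2 hd => prime_mod h hp hp2 hd⟩

/-- the products with a class of discriminant `18` -/
theorem three_dvd_D (hH : H.IsCubic) {u v : Fin 23 → ℤ} (hu : (3 : ℤ) ∣ H.disc u) :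
    (3 : ℤ) ∣ D H u v := by
  have h1 : H.disc u = 3 * H.ip u u - H.ip u H.h ^ 2 := by rw [disc, hH.comm H.h u]
  have h2 : (3 : ℤ) ∣ H.ip u H.h ^ 2 := by
    have : H.ip u H.h ^ 2 = 3 * H.ip u u - H.disc u := by rw [h1]; ring
    rw [this]
    exact dvd_sub (dvd_mul_right _ _) hu
  have h3 : (3 : ℤ) ∣ H.ip u H.h := Int.prime_three.dvd_of_dvd_pow h2
  rw [D]
  exact dvd_sub (dvd_mul_right _ _) (h3.mul_right _)

/-- **A class of discriminant `18` and a good class.** -/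
theorem of_eighteen (hH : H.IsCubic) {u v : Fin 23 → ℤ} (hu : H.IsHodge u)
    (hu18 : H.disc u = 18) (hv : H.IsHodge v) (h : H.disc v % 3 = 2 ∨ H.disc v % 18 = 6) :
    IsHilb H ∧ H.HasK3 := by
  obtain ⟨c, hc⟩ := even_disc hH v
  obtain ⟨e, he⟩ := three_dvd_D hH (u := u) (v := v) (by rw [hu18]; norm_num)
  have key : ∃ x n : ℤ, 9 * x ^ 2 + 6 * e * x + 4 * c = n ^ 2 + n + 1 := by
    by_cases hc1 : c % 3 = 1
    · exact arith18a (Or.inl hc1)
    · have hc3 : c % 9 = 3 := by omega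
      by_cases he3 : e % 3 = 0
      · obtain ⟨e1, he1⟩ : ∃ e1, e = 3 * e1 := ⟨e / 3, by omega⟩
        rw [he1]
        exact arith18b hc3
      · exact arith18a (Or.inr ⟨by omega, he3⟩)
  obtain ⟨x, n, hxn⟩ := key
  refine of_val hH (v := x • u + (2 : ℤ) • v) (n := n)
    (H.isHodge_add (H.isHodge_smul _ hu) (H.isHodge_smul _ hv)) ?_
  rw [disc_comb2 hH, hu18, hc, he]
  linarith

/-- **The criterion for `C_18`.** -/
theorem eighteen_iff (hH : H.IsCubic) {u : Fin 23 → ℤ} (hu : H.IsHodge u)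
    (hu18 : H.disc u = 18) :
    (H.HasK3 ↔ ∃ v, H.IsHodge v ∧ (H.disc v % 3 = 2 ∨ H.disc v % 18 = 6)) ∧
    (IsHilb H ↔ ∃ v, H.IsHodge v ∧ (H.disc v % 3 = 2 ∨ H.disc v % 18 = 6)) := by
  have h1 : H.HasK3 → ∃ v, H.IsHodge v ∧ (H.disc v % 3 = 2 ∨ H.disc v % 18 = 6) := by
    rintro ⟨v, hv, -, hadm⟩
    obtain ⟨c, hc⟩ := even_disc hH v
    exact ⟨v, hv, admissible_mod hadm (by omega)⟩
  exact ⟨⟨h1, fun ⟨_, hv, h⟩ => (of_eighteen hH hu hu18 hv h).2⟩,
    ⟨fun h => h1 (hasK3_of_hilb hH h), fun ⟨_, hv, h⟩ => (of_eighteen hH hu hu18 hv h).1⟩⟩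

/-- a matrix which has rank at most one modulo three -/
theorem pow_dvd_det {n : ℕ} (N : Matrix (Fin n) (Fin n) ℤ) (φ : Fin n → ℤ) :
    (3 : ℤ) ^ n ∣ 3 * (Matrix.of fun i j => φ i * φ j + 3 * N i j).det := by
  have h1 : (Matrix.of fun i j => φ i * φ j + 3 * N i j).det =
      (Matrix.fromBlocks (1 : Matrix Unit Unit ℤ) (Matrix.of fun (_ : Unit) j => -φ j)
        (Matrix.of fun i (_ : Unit) => φ i) (Matrix.of fun i j => 3 * N i j)).det := by
    rw [Matrix.det_fromBlocks_one₁₁]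
    congr 1
    ext i j
    rw [Matrix.sub_apply, Matrix.mul_apply]
    simp only [Matrix.of_apply, Finset.univ_unique, Finset.sum_singleton]
    ring
  have h2 : (Matrix.fromBlocks (1 : Matrix Unit Unit ℤ) (Matrix.of fun (_ : Unit) j => -φ j)
        (Matrix.of fun i (_ : Unit) => φ i) (Matrix.of fun i j => 3 * N i j)) *
      Matrix.diagonal (Sum.elim (fun _ : Unit => (3 : ℤ)) fun _ : Fin n => 1) =
      Matrix.diagonal (Sum.elim (fun _ : Unit => (1 : ℤ)) fun _ : Fin n => 3) *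
      (Matrix.fromBlocks (Matrix.of fun (_ _ : Unit) => (3 : ℤ))
        (Matrix.of fun (_ : Unit) j => -φ j)
        (Matrix.of fun i (_ : Unit) => φ i) N) := by
    ext i j
    rw [Matrix.mul_diagonal, Matrix.diagonal_mul]
    rcases i with i | i <;> rcases j with j | j
    · simp only [Matrix.fromBlocks_apply₁₁, Sum.elim_inl, Matrix.of_apply, Matrix.one_apply]
      simp
    · simp only [Matrix.fromBlocks_apply₁₂, Sum.elim_inl, Sum.elim_inr, Matrix.of_apply]
      ring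
    · simp only [Matrix.fromBlocks_apply₂₁, Sum.elim_inl, Sum.elim_inr, Matrix.of_apply]
      ring
    · simp only [Matrix.fromBlocks_apply₂₂, Sum.elim_inr, Matrix.of_apply]
      ring
  have h3 := congrArg Matrix.det h2
  rw [Matrix.det_mul, Matrix.det_mul, Matrix.det_diagonal, Matrix.det_diagonal,
    Fintype.prod_sum_type, Fintype.prod_sum_type] at h3
  simp only [Sum.elim_inl, Sum.elim_inr, Finset.prod_const_one, mul_one, Finset.prod_const,
    Finset.card_univ, Fintype.card_unit, Fintype.card_fin, pow_one, one_mul] at h3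
  rw [h1, mul_comm 3, h3]
  exact dvd_mul_right _ _

/-- if no class is good, `3^(r-1)` divides the discriminant of `A(X)` -/
theorem three_pow_dvd (hH : H.IsCubic) {r : ℕ} (b : Basis (Fin r) ℤ H.hodge)
    (hno : ∀ v, H.IsHodge v → ¬ (H.disc v % 3 = 2 ∨ H.disc v % 18 = 6)) :
    (3 : ℤ) ^ (r - 1) ∣ discA b := by
  match r, b with
  | 0, b => simp
  | n + 1, b =>
    have hB := isForm hH
    have hv : (⟨H.h, hH.h_hodge⟩ : H.hodge) ≠ 0 := by
      intro h0
      have h1 : H.h = 0 := congrArg Subtype.val h0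
      have h2 := hH.h_self
      rw [h1, ip_zero_left] at h2
      omega
    obtain ⟨c, hc1, hc2, hB', hdet⟩ := Red.step hB b hv (by
      intro k m x hk h
      obtain ⟨t, -, ht⟩ := hH.h_prim (g := k) (c := m) (z := (x : Fin 23 → ℤ)) hk (by
        have := congrArg Subtype.val h
        simpa using this)
      exact ⟨t, Subtype.ext (by simpa using ht)⟩)
    have hg : (Red.gram (fun x y : H.hodge => H.ip (x : Fin 23 → ℤ) (y : Fin 23 → ℤ)) b).det =
        discA b := rfl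
    simp only [hH.h_self] at hdet
    rw [hg] at hdet
    -- the values of the discriminant divided by six
    have hval : ∀ v, H.IsHodge v → ∃ g, H.disc v = 6 * g ∧ (g % 3 = 0 ∨ g % 3 = 2) := by
      intro v hv
      have h1 := hno v hv
      have h2 := disc_mod hH v
      exact ⟨H.disc v / 6, by omega, by omega⟩
    have hD : ∀ x y, H.IsHodge x → H.IsHodge y → ∃ d, D H x y = 3 * d := by
      intro x y hx hy
      obtain ⟨g, hg, -⟩ := hval x hx
      exact three_dvd_D hH (by rw [hg]; exact ⟨2 * g, by ring⟩)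
    -- the linear form
    have hφ : ∃ v0, H.IsHodge v0 ∧ ∀ x y, H.IsHodge x → H.IsHodge y → ∀ d p q : ℤ,
        D H x y = 3 * d → D H v0 x = 3 * p → D H v0 y = 3 * q → (3 : ℤ) ∣ d - p * q := by
      by_cases hex : ∃ v0, H.IsHodge v0 ∧ ∃ g, H.disc v0 = 6 * g ∧ g % 3 = 2
      · obtain ⟨v0, hv0, g0, hg0, hg02⟩ := hex
        have claim : ∀ x, H.IsHodge x → ∀ g p : ℤ, H.disc x = 6 * g → D H v0 x = 3 * p →
            (g % 3 = 0 ∧ p % 3 = 0) ∨ (g % 3 = 2 ∧ p % 3 ≠ 0) := by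
          intro x hx g p hg hp
          have e1 := disc_comb2 hH 1 1 v0 x
          have e2 := disc_comb2 hH 2 1 v0 x
          obtain ⟨g1, h1, h1'⟩ := hval _ (H.isHodge_add (H.isHodge_smul 1 hv0) (H.isHodge_smul 1 hx))
          obtain ⟨g2, h2, h2'⟩ := hval _ (H.isHodge_add (H.isHodge_smul 2 hv0) (H.isHodge_smul 1 hx))
          obtain ⟨g3, h3, h3'⟩ := hval x hx
          rw [h1, hg0, hg, hp] at e1
          rw [h2, hg0, hg, hp] at e2
          omega
        refine ⟨v0, hv0, fun x y hx hy d p q hd hp hq => ?_⟩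
        obtain ⟨gx, hgx, -⟩ := hval x hx
        obtain ⟨gy, hgy, -⟩ := hval y hy
        obtain ⟨gs, hgs, -⟩ := hval _ (H.isHodge_add (H.isHodge_smul 1 hx) (H.isHodge_smul 1 hy))
        have e1 := disc_comb2 hH 1 1 x y
        rw [hgs, hgx, hgy, hd] at e1
        have c1 := claim x hx gx p hgx hp
        have c2 := claim y hy gy q hgy hq
        have c3 := claim _ (H.isHodge_add (H.isHodge_smul 1 hx) (H.isHodge_smul 1 hy)) gs (p + q)
          hgs (by rw [D_add_right hH, D_smul_right hH, D_smul_right hH, hp, hq]; ring)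
        have h1 : d = gs - gx - gy := by omega
        have h2 : (p * q) % 3 = ((p % 3) * (q % 3)) % 3 := Int.mul_emod _ _ _
        have h3 : (gs - gx - gy - (p % 3) * (q % 3)) % 3 = 0 := by
          have hp3 : p % 3 = 0 ∨ p % 3 = 1 ∨ p % 3 = 2 := by omega
          have hq3 : q % 3 = 0 ∨ q % 3 = 1 ∨ q % 3 = 2 := by omega
          rcases hp3 with hp3 | hp3 | hp3 <;> rcases hq3 with hq3 | hq3 | hq3 <;>
            rw [hp3, hq3] <;> omega
        rw [h1]
        omega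
      · push Not at hex
        refine ⟨0, H.isHodge_zero, fun x y hx hy d p q hd hp hq => ?_⟩
        obtain ⟨gx, hgx, hgx'⟩ := hval x hx
        obtain ⟨gy, hgy, hgy'⟩ := hval y hy
        obtain ⟨gs, hgs, hgs'⟩ := hval _ (H.isHodge_add (H.isHodge_smul 1 hx) (H.isHodge_smul 1 hy))
        have e1 := disc_comb2 hH 1 1 x y
        have a1 := hex x hx gx hgx
        have a2 := hex y hy gy hgy
        have a3 := hex _ (H.isHodge_add (H.isHodge_smul 1 hx) (H.isHodge_smul 1 hy)) gs hgs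
        rw [hgs, hgx, hgy, hd] at e1
        rw [D_zero_left] at hp hq
        have hp0 : p = 0 := by omega
        rw [hp0, zero_mul, sub_zero]
        omega
    obtain ⟨v0, hv0, hφ⟩ := hφ
    obtain ⟨z, hz⟩ : ∃ z : Fin n → H.hodge, ∀ i, z i = Red.comb c (Pi.basisFun ℤ (Fin n) i) :=
      ⟨_, fun _ => rfl⟩
    choose φ hφ1 using fun i => hD v0 (z i) hv0 (z i).2
    have hN : ∀ i j, ∃ m, D H (z i) (z j) = 3 * (φ i * φ j + 3 * m) := by
      intro i j
      obtain ⟨d, hd⟩ := hD (z i) (z j) (z i).2 (z j).2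
      obtain ⟨m, hm⟩ := hφ (z i) (z j) (z i).2 (z j).2 d (φ i) (φ j) hd (hφ1 i) (hφ1 j)
      exact ⟨m, by rw [hd]; linarith⟩
    choose N hN using hN
    obtain ⟨G, hG⟩ : ∃ G : Matrix (Fin n) (Fin n) ℤ, G = Red.gram (fun x y : Fin n → ℤ =>
        3 * H.ip (Red.comb c x : H.hodge) (Red.comb c y : H.hodge) -
        H.ip (Red.comb c x : H.hodge) H.h * H.ip (Red.comb c y : H.hodge) H.h)
        (Pi.basisFun ℤ (Fin n)) := ⟨_, rfl⟩
    rw [← hG] at hdet
    have h5 : G = (3 : ℤ) • Matrix.of fun i j => φ i * φ j + 3 * N i j := by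
      ext i j
      have := hN i j
      rw [hz i, hz j] at this
      rw [hG]
      simp only [Red.gram, Matrix.of_apply, Matrix.smul_apply, smul_eq_mul]
      exact this
    rw [h5, Matrix.det_smul, Fintype.card_fin] at hdet
    rw [Nat.add_sub_cancel]
    have h6 := pow_dvd_det (Matrix.of N) φ
    have h7 : discA b = 3 * (Matrix.of fun i j => φ i * φ j + 3 * N i j).det := by
      have h8 : (3 : ℤ) ^ n * discA b =
          3 ^ n * (3 * (Matrix.of fun i j => φ i * φ j + 3 * N i j).det) := by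
        rw [← hdet]; ring
      exact mul_left_cancel₀ (by positivity) h8
    rw [h7]
    exact h6

end Pool.Agent.Q53.LFB
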