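import Pool.Agent.Q53.LFA.Main

/-!
# Cubic fourfolds with a plane and Hodge classes of small discriminant
-/

set_option autoImplicit false

namespace Pool.Agent.Q53.LFB

open Pool.Agent.Q53.LFY Pool.Agent.Q53.LFY.CubLat Pool.Agent.Q53.LFA

variable {H : CubLat}

/-- `X` is in one of the four admissible Hassett divisors of smallest discriminant -/
def InK (H : CubLat) : Prop := InC H 14 ∨ InC H 26 ∨ InC H 38 ∨ InC H 42

theorem sqf4 {d : ℤ} (hd : d = 14 ∨ d = 26 ∨ d = 38 ∨ d = 42) (m e : ℤ) (h : m ^ 2 * e = d)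
    (hm : 0 < m) : m = 1 := by
  have he : 0 < e := by
    by_contra hcon
    have : m ^ 2 * e ≤ 0 := mul_nonpos_of_nonneg_of_nonpos (by positivity) (by omega)
    omega
  have h1 : m ^ 2 ≤ m ^ 2 * e := by nlinarith [sq_nonneg m]
  have h2 : m < 7 := by
    rw [h] at h1
    have h4 : m ^ 2 ≤ 42 := by omega
    nlinarith
  have h3 : e ≤ 42 := by
    have : 1 * e ≤ m ^ 2 * e := by
      apply mul_le_mul_of_nonneg_right _ he.le
      nlinarith
    omega
  interval_cases m
  · rfl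
  all_goals omega

theorem inC_small4 (hH : H.IsCubic) {v : Fin 23 → ℤ} (hv : H.IsHodge v) {d : ℤ}
    (hd : H.disc v = d) (hd' : d = 14 ∨ d = 26 ∨ d = 38 ∨ d = 42) : InC H d :=
  inC_of_disc hH hv hd (by omega) (sqf4 hd')

/-- a Hodge class with one of the four discriminants -/
theorem inK_of_disc (hH : H.IsCubic) {v : Fin 23 → ℤ} (hv : H.IsHodge v)
    (hd : H.disc v = 14 ∨ H.disc v = 26 ∨ H.disc v = 38 ∨ H.disc v = 42) : InK H := by
  rcases hd with h | h | h | h
  · exact Or.inl (inC_small4 hH hv h (Or.inl rfl))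
  · exact Or.inr (Or.inl (inC_small4 hH hv h (Or.inr (Or.inl rfl))))
  · exact Or.inr (Or.inr (Or.inl (inC_small4 hH hv h (Or.inr (Or.inr (Or.inl rfl))))))
  · exact Or.inr (Or.inr (Or.inr (inC_small4 hH hv h (Or.inr (Or.inr (Or.inr rfl))))))

theorem admissible38 : Admissible 38 := by
  refine ⟨by norm_num, by omega, by omega, fun p hp hp2 hpd => ?_⟩
  have h1 : p ∣ 38 := by exact_mod_cast hpd
  have h2 : p ≤ 38 := Nat.le_of_dvd (by norm_num) h1
  interval_cases p <;> revert hp hp2 h1 <;> decide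

theorem hasK3_of_inK (h : InK H) : H.HasK3 := by
  rcases h with h | h | h | h
  · exact hasK3_of_inC (Or.inl rfl) h
  · exact hasK3_of_inC (Or.inr (Or.inl rfl)) h
  · obtain ⟨v, h1, h2, h3⟩ := h
    exact ⟨v, h1, h2, by rw [h3]; exact admissible38⟩
  · exact hasK3_of_inC (Or.inr (Or.inr rfl)) h

theorem D_add_right (hH : H.IsCubic) (x y z : Fin 23 → ℤ) :
    D H x (y + z) = D H x y + D H x z := by
  rw [D_comm hH, D_add_left, D_comm hH y, D_comm hH z]

theorem D_smul_right (hH : H.IsCubic) (n : ℤ) (x z : Fin 23 → ℤ) :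
    D H x (n • z) = n * D H x z := by
  rw [D_comm hH, D_smul_left, D_comm hH z]

/-- the discriminant of a combination of three classes -/
theorem disc_comb3 (hH : H.IsCubic) (x y z : ℤ) (P u v : Fin 23 → ℤ) :
    H.disc (x • P + y • u + z • v) = x ^ 2 * H.disc P + y ^ 2 * H.disc u + z ^ 2 * H.disc v +
      2 * (x * y * D H P u + x * z * D H P v + y * z * D H u v) := by
  rw [← D_self hH, ← D_self hH P, ← D_self hH u, ← D_self hH v]
  simp only [D_add_left, D_add_right hH, D_smul_left, D_smul_right hH]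
  rw [D_comm hH u P, D_comm hH v P, D_comm hH v u]
  ring

theorem disc_comb2 (hH : H.IsCubic) (x y : ℤ) (P u : Fin 23 → ℤ) :
    H.disc (x • P + y • u) = x ^ 2 * H.disc P + y ^ 2 * H.disc u + 2 * (x * y * D H P u) := by
  have := disc_comb3 hH x y 0 P u 0
  rw [zero_smul, add_zero] at this
  rw [this]
  ring

/-- the discriminant as a sum of nonnegative and even terms -/
theorem disc_mod (hH : H.IsCubic) (w : Fin 23 → ℤ) : H.disc w % 6 = 0 ∨ H.disc w % 6 = 2 := by
  obtain ⟨c, hc⟩ := hH.char w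
  have h1 : H.ip H.h w = H.ip w H.h := hH.comm _ _
  have h2 : H.disc w = 3 * H.ip w w - H.ip w H.h ^ 2 := by rw [disc, h1]
  obtain ⟨a, ha⟩ : ∃ a, a = H.ip w H.h := ⟨_, rfl⟩
  obtain ⟨b, hb⟩ : ∃ b, b = H.ip w w := ⟨_, rfl⟩
  rw [← ha, ← hb] at hc h2
  have h3 : b = a + 2 * c := by omega
  have h4 : H.disc w = 3 * a - a ^ 2 + 6 * c := by rw [h2, h3]; ring
  have h5 : (3 * a - a ^ 2) % 6 = 0 ∨ (3 * a - a ^ 2) % 6 = 2 := by
    have h6 : a % 6 = 0 ∨ a % 6 = 1 ∨ a % 6 = 2 ∨ a % 6 = 3 ∨ a % 6 = 4 ∨ a % 6 = 5 := by omega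
    obtain ⟨k, hk⟩ : ∃ k, k = a / 6 := ⟨_, rfl⟩
    have h7 : a = 6 * k + a % 6 := by omega
    rcases h6 with h | h | h | h | h | h <;> rw [h] at h7 <;> rw [h7] <;> ring_nf <;> omega
  omega

/-- three times the norm of the projection -/
theorem norm_proj (hH : H.IsCubic) (w : Fin 23 → ℤ) :
    H.ip ((3 : ℤ) • w - H.ip w H.h • H.h) ((3 : ℤ) • w - H.ip w H.h • H.h) = 3 * H.disc w := by
  simp only [ip_sub_left, ip_sub_right, ip_smul_left, ip_smul_right, hH.h_self, disc,
    hH.comm H.h w]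
  ring

theorem disc_nonneg (hH : H.IsCubic) {w : Fin 23 → ℤ} (hw : H.IsHodge w) : 0 ≤ H.disc w := by
  have h1 := norm_proj hH w
  have h2 := hH.nonneg (H.isHodge_sub (H.isHodge_smul 3 hw) (H.isHodge_smul (H.ip w H.h) hH.h_hodge))
  omega

theorem disc_zero (hH : H.IsCubic) {w : Fin 23 → ℤ} (hw : H.IsHodge w) (h0 : H.disc w = 0)
    (x : Fin 23 → ℤ) : D H w x = 0 := by
  have h1 := norm_proj hH w
  have h2 := H.isHodge_sub (H.isHodge_smul 3 hw) (H.isHodge_smul (H.ip w H.h) hH.h_hodge)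
  have h3 : (3 : ℤ) • w - H.ip w H.h • H.h = 0 := by
    by_contra hne
    have := hH.pos _ h2 hne
    omega
  have h4 : (3 : ℤ) • w = H.ip w H.h • H.h := sub_eq_zero.1 h3
  have h5 : 3 * D H w x = 0 := by
    rw [← D_smul_left, h4, D_smul_left, D_h hH, mul_zero]
  omega

/-- the values of the discriminant -/
theorem disc_val (hH : H.IsCubic) {w : Fin 23 → ℤ} (hw : H.IsHodge w) :
    H.disc w = 0 ∨ (8 ≤ H.disc w ∧ (H.disc w % 6 = 0 ∨ H.disc w % 6 = 2)) := by
  have h1 := disc_nonneg hH hw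
  have h2 := disc_mod hH w
  have h3 := hH.six_lt hw
  omega

theorem plane_disc (hH : H.IsCubic) {P : Fin 23 → ℤ} (hP : H.IsPl P) : H.disc P = 8 := by
  rw [disc, hH.comm H.h P, hP.2.1, hP.2.2]
  norm_num

/-- a plane and a class of small discriminant not divisible by four -/
theorem plane_two (hH : H.IsCubic) {P u : Fin 23 → ℤ} (hP : H.IsPl P) (hu : H.IsHodge u)
    (hev : Even (D H P u)) (h42 : H.disc u ≤ 42) (h4 : ¬ (4 : ℤ) ∣ H.disc u) : InK H := by
  have a0 := disc_val hH hu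
  have e1 := disc_comb2 hH 1 1 P u
  have e2 := disc_comb2 hH (-1) 1 P u
  have a1 := disc_val hH (H.isHodge_add (H.isHodge_smul 1 hP.1) (H.isHodge_smul 1 hu))
  have a2 := disc_val hH (H.isHodge_add (H.isHodge_smul (-1) hP.1) (H.isHodge_smul 1 hu))
  rw [plane_disc hH hP] at e1 e2
  rw [e1] at a1
  rw [e2] at a2
  obtain ⟨k, hk⟩ := hev
  have key : (H.disc u = 14 ∨ H.disc u = 26 ∨ H.disc u = 38 ∨ H.disc u = 42) ∨
      (H.disc ((1 : ℤ) • P + (1 : ℤ) • u) = 14 ∨ H.disc ((1 : ℤ) • P + (1 : ℤ) • u) = 26 ∨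
        H.disc ((1 : ℤ) • P + (1 : ℤ) • u) = 38 ∨ H.disc ((1 : ℤ) • P + (1 : ℤ) • u) = 42) ∨
      (H.disc ((-1 : ℤ) • P + (1 : ℤ) • u) = 14 ∨ H.disc ((-1 : ℤ) • P + (1 : ℤ) • u) = 26 ∨
        H.disc ((-1 : ℤ) • P + (1 : ℤ) • u) = 38 ∨ H.disc ((-1 : ℤ) • P + (1 : ℤ) • u) = 42) := by
    rw [e1, e2]
    rw [hk] at a1 a2 ⊢
    generalize H.disc u = n at *
    have hn : n = 14 ∨ n = 18 ∨ n = 26 ∨ n = 30 ∨ n = 38 ∨ n = 42 := by omega
    rcases hn with rfl | rfl | rfl | rfl | rfl | rfl <;> omega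
  rcases key with h | h | h
  · exact inK_of_disc hH hu h
  · exact inK_of_disc hH
      (H.isHodge_add (H.isHodge_smul 1 hP.1) (H.isHodge_smul 1 hu)) h
  · exact inK_of_disc hH
      (H.isHodge_add (H.isHodge_smul (-1) hP.1) (H.isHodge_smul 1 hu)) h

/-- reduction modulo the class of the plane -/
theorem reduce (hH : H.IsCubic) {P u : Fin 23 → ℤ} (hP : H.IsPl P) :
    ∃ t : ℤ, -4 ≤ D H P (u + t • P) ∧ D H P (u + t • P) ≤ 4 ∧ H.disc (u + t • P) ≤ H.disc u := by
  have hPP : D H P P = 8 := by rw [D_self hH, plane_disc hH hP]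
  have e1 : ∀ t : ℤ, D H P (u + t • P) = D H P u + 8 * t := by
    intro t
    rw [D_add_right hH, D_smul_right hH, hPP]
    ring
  have e2 : ∀ t : ℤ, 8 * H.disc (u + t • P) = 8 * H.disc u + (D H P u + 8 * t) ^ 2 -
      D H P u ^ 2 := by
    intro t
    have := disc_comb2 hH t 1 P u
    rw [one_smul, add_comm, plane_disc hH hP] at this
    rw [this]
    ring
  by_cases h : |D H P u| ≤ 4
  · rw [abs_le] at h
    refine ⟨0, ?_, ?_, ?_⟩
    · rw [e1]; omega
    · rw [e1]; omega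
    · rw [zero_smul, add_zero]
  · rw [not_le] at h
    obtain ⟨r, hr⟩ : ∃ r, r = D H P u := ⟨_, rfl⟩
    rw [← hr] at h
    refine ⟨-((r + 4) / 8), ?_, ?_, ?_⟩
    · rw [e1, ← hr]; omega
    · rw [e1, ← hr]; omega
    · have h1 := e2 (-((r + 4) / 8))
      rw [← hr] at h1
      obtain ⟨s, hs⟩ : ∃ s, s = r + 8 * -((r + 4) / 8) := ⟨_, rfl⟩
      rw [← hs] at h1
      have hs1 : |s| ≤ |r| := by
        have : |s| ≤ 4 := by rw [abs_le]; omega
        omega
      have hs2 : s ^ 2 ≤ r ^ 2 := sq_le_sq.2 hs1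
      omega

/-- values: discriminants of nonzero classes -/
def okv (n : ℤ) : Bool := decide (8 ≤ n) && (decide (n % 6 = 0) || decide (n % 6 = 2))

/-- the four discriminants -/
def inK (n : ℤ) : Bool := decide (n = 14) || decide (n = 26) || decide (n = 38) || decide (n = 42)

/-- the values at `x P + y u + z v` -/
def val (a b r s m x y z : ℤ) : ℤ :=
  x ^ 2 * 8 + y ^ 2 * a + z ^ 2 * b + 2 * (x * y * r + x * z * s + y * z * m)

/-- the check of one case -/
def chk (a b r s m : ℤ) : Bool :=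
  let l := [val a b r s m 0 1 1, val a b r s m 0 1 (-1), val a b r s m 1 1 1,
    val a b r s m 1 1 (-1), val a b r s m (-1) 1 1, val a b r s m (-1) 1 (-1)]
  !(l.all okv && okv (val a b r s m 1 1 0) && okv (val a b r s m (-1) 1 0) &&
    okv (val a b r s m 1 0 1) && okv (val a b r s m (-1) 0 1)) || l.any inK

theorem chk_all : ∀ a ∈ ([8, 12, 20, 24] : List ℤ), ∀ b ∈ ([8, 12, 20, 24] : List ℤ),
    ∀ r ∈ ([-4, -2, 0, 2, 4] : List ℤ), ∀ s ∈ ([-4, -2, 0, 2, 4] : List ℤ),
    ∀ m ∈ (List.range 24).map (fun i : ℕ => 2 * (i : ℤ) - 23), chk a b r s m = true := by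
  decide +kernel

/-- the classes of a pair with an odd product are not multiples of `h` -/
theorem okv_of (hH : H.IsCubic) {P u v : Fin 23 → ℤ} (hP : H.IsPl P) (hu : H.IsHodge u)
    (hv : H.IsHodge v) (hPu : Even (D H P u)) (hPv : Even (D H P v)) (hu2 : Even (H.disc u))
    (hv2 : Even (H.disc v)) (hodd : Odd (D H u v)) (x y z : ℤ) (hyz : Odd y ∨ Odd z) :
    okv (val (H.disc u) (H.disc v) (D H P u) (D H P v) (D H u v) x y z) = true := by
  have hw : H.IsHodge (x • P + y • u + z • v) :=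
    H.isHodge_add (H.isHodge_add (H.isHodge_smul x hP.1) (H.isHodge_smul y hu))
      (H.isHodge_smul z hv)
  have e : val (H.disc u) (H.disc v) (D H P u) (D H P v) (D H u v) x y z =
      H.disc (x • P + y • u + z • v) := by
    rw [disc_comb3 hH, plane_disc hH hP, val]
  rw [e]
  rcases disc_val hH hw with h | ⟨h1, h2⟩
  · exfalso
    rcases hyz with hy | hz
    · have h1 := disc_zero hH hw h v
      simp only [D_add_left, D_smul_left] at h1
      rw [D_self hH v] at h1
      have h2 : Odd (x * D H P v + y * D H u v + z * H.disc v) :=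
        ((hPv.mul_left x).add_odd (hy.mul hodd)).add_even (hv2.mul_left z)
      rw [h1] at h2
      exact absurd h2 (by decide)
    · have h1 := disc_zero hH hw h u
      simp only [D_add_left, D_smul_left] at h1
      rw [D_self hH u, D_comm hH v u] at h1
      have h2 : Odd (x * D H P u + y * H.disc u + z * D H u v) :=
        ((hPu.mul_left x).add (hu2.mul_left y)).add_odd (hz.mul hodd)
      rw [h1] at h2
      exact absurd h2 (by decide)
  · unfold okv
    simp only [Bool.and_eq_true, Bool.or_eq_true, decide_eq_true_eq]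
    exact ⟨h1, h2⟩

theorem inK_of_val (hH : H.IsCubic) {P u v : Fin 23 → ℤ} (hP : H.IsPl P) (hu : H.IsHodge u)
    (hv : H.IsHodge v) {x y z : ℤ}
    (h : inK (val (H.disc u) (H.disc v) (D H P u) (D H P v) (D H u v) x y z) = true) : InK H := by
  have hw : H.IsHodge (x • P + y • u + z • v) :=
    H.isHodge_add (H.isHodge_add (H.isHodge_smul x hP.1) (H.isHodge_smul y hu))
      (H.isHodge_smul z hv)
  have e : val (H.disc u) (H.disc v) (D H P u) (D H P v) (D H u v) x y z =
      H.disc (x • P + y • u + z • v) := by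
    rw [disc_comb3 hH, plane_disc hH hP, val]
  rw [e] at h
  unfold inK at h
  simp only [Bool.or_eq_true, decide_eq_true_eq] at h
  refine inK_of_disc hH hw ?_
  rcases h with ((h | h) | h) | h
  · exact Or.inl h
  · exact Or.inr (Or.inl h)
  · exact Or.inr (Or.inr (Or.inl h))
  · exact Or.inr (Or.inr (Or.inr h))

/-- a plane and two classes of small discriminant, reduced modulo the plane -/
theorem plane_pair_reduced (hH : H.IsCubic) {P u v : Fin 23 → ℤ} (hP : H.IsPl P)
    (hu : H.IsHodge u) (hv : H.IsHodge v) (hPu : Even (D H P u)) (hPv : Even (D H P v))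
    (hu4 : (4 : ℤ) ∣ H.disc u) (hv4 : (4 : ℤ) ∣ H.disc v) (hu24 : H.disc u ≤ 24)
    (hv24 : H.disc v ≤ 24) (hodd : Odd (D H u v)) (hr1 : -4 ≤ D H P u) (hr2 : D H P u ≤ 4)
    (hs1 : -4 ≤ D H P v) (hs2 : D H P v ≤ 4) : InK H := by
  have hu2 : Even (H.disc u) := even_iff_two_dvd.2 ((show (2 : ℤ) ∣ 4 by norm_num).trans hu4)
  have hv2 : Even (H.disc v) := even_iff_two_dvd.2 ((show (2 : ℤ) ∣ 4 by norm_num).trans hv4)
  have hok := okv_of hH hP hu hv hPu hPv hu2 hv2 hodd
  have ho : Odd (1 : ℤ) := by decide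
  have ho' : Odd (-1 : ℤ) := by decide
  have b1 := hok 0 1 1 (Or.inl ho)
  have b2 := hok 0 1 (-1) (Or.inl ho)
  have ha : okv (H.disc u) = true := by
    have := hok 0 1 0 (Or.inl ho)
    simpa [val] using this
  have hb : okv (H.disc v) = true := by
    have := hok 0 0 1 (Or.inr ho)
    simpa [val] using this
  unfold okv at b1 b2 ha hb
  simp only [Bool.and_eq_true, Bool.or_eq_true, decide_eq_true_eq] at b1 b2 ha hb
  have ma : H.disc u ∈ ([8, 12, 20, 24] : List ℤ) := by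
    simp only [List.mem_cons, List.not_mem_nil, or_false]
    omega
  have mb : H.disc v ∈ ([8, 12, 20, 24] : List ℤ) := by
    simp only [List.mem_cons, List.not_mem_nil, or_false]
    omega
  have mr : D H P u ∈ ([-4, -2, 0, 2, 4] : List ℤ) := by
    simp only [List.mem_cons, List.not_mem_nil, or_false]
    obtain ⟨k, hk⟩ := hPu
    omega
  have ms : D H P v ∈ ([-4, -2, 0, 2, 4] : List ℤ) := by
    simp only [List.mem_cons, List.not_mem_nil, or_false]
    obtain ⟨k, hk⟩ := hPv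
    omega
  have mm : D H u v ∈ (List.range 24).map (fun i : ℕ => 2 * (i : ℤ) - 23) := by
    rw [List.mem_map]
    obtain ⟨k, hk⟩ := hodd
    have c1 := b1.1
    have c2 := b2.1
    unfold val at c1 c2
    refine ⟨(k + 12).toNat, ?_, ?_⟩
    · rw [List.mem_range]
      omega
    · rw [Int.toNat_of_nonneg (by omega)]
      omega
  have hc := chk_all _ ma _ mb _ mr _ ms _ mm
  unfold chk at hc
  simp only [List.all_cons, List.all_nil, List.any_cons, List.any_nil, Bool.or_false, Bool.and_true,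
    hok 0 1 1 (Or.inl ho), hok 0 1 (-1) (Or.inl ho), hok 1 1 1 (Or.inl ho),
    hok 1 1 (-1) (Or.inl ho), hok (-1) 1 1 (Or.inl ho), hok (-1) 1 (-1) (Or.inl ho),
    hok 1 1 0 (Or.inl ho), hok (-1) 1 0 (Or.inl ho), hok 1 0 1 (Or.inr ho),
    hok (-1) 0 1 (Or.inr ho), Bool.not_true, Bool.false_or, Bool.or_eq_true] at hc
  rcases hc with h | h | h | h | h | h
  all_goals exact inK_of_val hH hP hu hv h

/-- a plane and two classes of small discriminant -/
theorem plane_pair (hH : H.IsCubic) {P u v : Fin 23 → ℤ} (hP : H.IsPl P)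
    (hu : H.IsHodge u) (hv : H.IsHodge v) (hPu : Even (D H P u)) (hPv : Even (D H P v))
    (hu4 : (4 : ℤ) ∣ H.disc u) (hv4 : (4 : ℤ) ∣ H.disc v) (hu24 : H.disc u ≤ 24)
    (hv24 : H.disc v ≤ 24) (hodd : Odd (D H u v)) : InK H := by
  have hPP : D H P P = 8 := by rw [D_self hH, plane_disc hH hP]
  obtain ⟨t, t1, t2, t3⟩ := reduce (u := u) hH hP
  obtain ⟨s, s1, s2, s3⟩ := reduce (u := v) hH hP
  have e1 : D H P (u + t • P) = D H P u + 8 * t := by
    rw [D_add_right hH, D_smul_right hH, hPP]; ring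
  have e2 : D H P (v + s • P) = D H P v + 8 * s := by
    rw [D_add_right hH, D_smul_right hH, hPP]; ring
  have f1 : H.disc (u + t • P) = H.disc u + 2 * t * D H P u + 8 * t ^ 2 := by
    have := disc_comb2 hH t 1 P u
    rw [one_smul, add_comm, plane_disc hH hP] at this
    rw [this]; ring
  have f2 : H.disc (v + s • P) = H.disc v + 2 * s * D H P v + 8 * s ^ 2 := by
    have := disc_comb2 hH s 1 P v
    rw [one_smul, add_comm, plane_disc hH hP] at this
    rw [this]; ring
  have g : D H (u + t • P) (v + s • P) = D H u v + s * D H P u + t * D H P v + 8 * (s * t) := by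
    rw [D_add_left, D_add_right hH, D_add_right hH, D_smul_left, D_smul_right hH,
      D_smul_left, D_smul_right hH, hPP, D_comm hH u P]
    ring
  obtain ⟨k, hk⟩ := hPu
  obtain ⟨l, hl⟩ := hPv
  refine plane_pair_reduced hH hP (H.isHodge_add hu (H.isHodge_smul t hP.1))
    (H.isHodge_add hv (H.isHodge_smul s hP.1)) ?_ ?_ ?_ ?_ (t3.trans hu24) (s3.trans hv24) ?_
    t1 t2 s1 s2
  · rw [e1, hk]; exact ⟨k + 4 * t, by ring⟩
  · rw [e2, hl]; exact ⟨l + 4 * s, by ring⟩
  · rw [f1, hk]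
    obtain ⟨c, hc⟩ := hu4
    exact ⟨c + t * k + 2 * t ^ 2, by rw [hc]; ring⟩
  · rw [f2, hl]
    obtain ⟨c, hc⟩ := hv4
    exact ⟨c + s * l + 2 * s ^ 2, by rw [hc]; ring⟩
  · rw [g, hk, hl]
    obtain ⟨c, hc⟩ := hodd
    exact ⟨c + s * k + t * l + 4 * (s * t), by rw [hc]; ring⟩

/-- the parity of the products with the quadric -/
theorem even_iff (hH : H.IsCubic) {P T : Fin 23 → ℤ} (hP : H.IsPl P) :
    Even (D H P T) ↔ ¬ Odd (H.ip T (H.h - P)) := by
  rw [Int.not_odd_iff_even, ip_sub_right, D, hP.2.1, hH.comm P T, one_mul]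
  constructor
  · rintro ⟨k, hk⟩
    exact ⟨H.ip T P - k, by omega⟩
  · rintro ⟨k, hk⟩
    exact ⟨H.ip T P - k, by omega⟩

variable (H)

/-- the Hodge classes of discriminant at most `42`, those with discriminant divisible by `4` having
discriminant at most `24` -/
def Small (v : Fin 23 → ℤ) : Prop :=
  H.IsHodge v ∧ H.disc v ≤ 42 ∧ ((4 : ℤ) ∣ H.disc v → H.disc v ≤ 24)

variable {H}

theorem main (hH : H.IsCubic) {P : Fin 23 → ℤ} (hP : H.IsPl P)
    (hgen : ∀ v, H.IsHodge v → ∃ m : ℤ, Odd m ∧ m • v ∈ Submodule.span ℤ {x | Small H x}) :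
    H.HasK3 ↔ (∃ T, H.IsHodge T ∧ Odd (H.ip T (H.h - P))) ∨ InK H := by
  constructor
  · intro hK
    by_contra hcon
    push Not at hcon
    obtain ⟨h1, h2⟩ := hcon
    have hev : ∀ T, H.IsHodge T → Even (D H P T) := fun T hT => (even_iff hH hP).2 (by
      rw [Int.not_odd_iff_even]
      exact Int.not_odd_iff_even.1 (by simpa using h1 T hT))
    have h4 : ∀ x, Small H x → (4 : ℤ) ∣ H.disc x := by
      intro x hx
      by_contra hc
      exact h2 (plane_two hH hP hx.1 (hev x hx.1) hx.2.1 hc)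
    refine no_k3_four {x | Small H x} (fun x hx => four_dvd hH _ ?_ ?_ hx) hgen hK
    · intro x hx y hy
      by_contra hc
      have hodd : Odd (D H x y) := by
        rw [← Int.not_even_iff_odd, even_iff_two_dvd]
        exact hc
      exact h2 (plane_pair hH hP hx.1 hy.1 (hev x hx.1) (hev y hy.1) (h4 x hx) (h4 y hy)
        (hx.2.2 (h4 x hx)) (hy.2.2 (h4 y hy)) hodd)
    · intro x hx
      rw [D_self hH]
      exact h4 x hx
  · rintro (⟨T, hT, h⟩ | h)
    · exact hH.hasK3 hP hT h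
    · exact hasK3_of_inK h

end Pool.Agent.Q53.LFB
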