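import Pool.Agent.Q53.LFB.Plane

/-!
# Cubic fourfolds with a plane: the associated K3 surface
-/

set_option autoImplicit false

namespace Pool.Agent.Q53.LFB

open Pool.Agent.Q53.LFY Pool.Agent.Q53.LFY.CubLat Pool.Agent.Q53.LFA

variable {H : CubLat}

/-- `X` is in `C_d` for a `d` of the form `(2 n^2 + 2 n + 2) / a^2`: by a theorem of Addington
this means that the variety of lines of `X` is birational to the Hilbert square of a K3 surface. -/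
def IsHilb (H : CubLat) : Prop :=
  ∃ v, H.IsHodge v ∧ H.Saturated v ∧ ∃ a n : ℤ, a ≠ 0 ∧ a ^ 2 * H.disc v = 2 * n ^ 2 + 2 * n + 2

/-- a class of discriminant `2 n^2 + 2 n + 2` -/
theorem of_val (hH : H.IsCubic) {v : Fin 23 → ℤ} (hv : H.IsHodge v) {n : ℤ}
    (h : H.disc v = 2 * n ^ 2 + 2 * n + 2) : IsHilb H ∧ H.HasK3 := by
  have hpos : 0 < H.disc v := by
    rw [h]
    nlinarith [sq_nonneg (2 * n + 1)]
  obtain ⟨w, m, l, hm, hsat, hw⟩ := hH.exists_saturated _ hpos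
  have hwH : H.IsHodge w := by
    refine H.isHodge_of_smul hm.ne' ?_
    have h1 : m • w = v - l • H.h := by
      rw [hw]
      abel
    rw [h1]
    exact H.isHodge_sub hv (H.isHodge_smul _ hH.h_hodge)
  have hmw : m ^ 2 * H.disc w = 2 * n ^ 2 + 2 * n + 2 := by
    rw [← h, hw, hH.disc_comb]
  have hw0 : 0 < H.disc w := by
    by_contra hcon
    push Not at hcon
    have : m ^ 2 * H.disc w ≤ 0 := mul_nonpos_of_nonneg_of_nonpos (by positivity) hcon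
    rw [hmw, ← h] at this
    linarith
  exact ⟨⟨w, hwH, hsat, m, n, hm.ne', hmw⟩, w, hwH, hsat, hH.six_lt hwH hw0, four_not_dvd hmw,
    nine_not_dvd hmw, fun p hp hp2 hd => prime_mod hmw hp hp2 hd⟩

theorem even_disc (hH : H.IsCubic) (v : Fin 23 → ℤ) : ∃ c, H.disc v = 2 * c := by
  have := disc_mod hH v
  exact ⟨H.disc v / 2, by omega⟩

/-- the arithmetic of the even case -/
theorem arith_even {e c t : ℤ} (hc : c % 2 = 1) (h3 : 4 * c - e ^ 2 = 3 * t) :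
    ∃ x n : ℤ, 4 * x ^ 2 + 2 * e * x + c = n ^ 2 + n + 1 := by
  rcases Int.even_or_odd' e with ⟨g, hg | hg⟩
  · obtain ⟨k, hk⟩ := Int.even_mul_succ_self g
    obtain ⟨c', hc'⟩ : ∃ c', c = 2 * c' + 1 := ⟨c / 2, by omega⟩
    refine ⟨c' - k, c - g ^ 2 - 1, ?_⟩
    have h1 : 2 * k = g ^ 2 + g := by linarith
    have h2 : 2 * (c' - k) = (c - g ^ 2 - 1) - g := by rw [hc']; linarith
    have h3 : 4 * (c' - k) ^ 2 = (2 * (c' - k)) ^ 2 := by ring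
    have h4 : 2 * e * (c' - k) = e * (2 * (c' - k)) := by ring
    rw [h3, h4, h2, hg]
    ring
  · -- `e` is odd
    obtain ⟨k, hk⟩ := Int.even_mul_succ_self g
    have he8 : e ^ 2 = 8 * k + 1 := by rw [hg]; linarith
    obtain ⟨j, hj⟩ : ∃ j, 4 * c - e ^ 2 = 3 + 24 * j := by
      refine ⟨(t - 1) / 8, ?_⟩
      omega
    have hval : ∀ ε x : ℤ, ε ^ 2 = 1 → 4 * x + e = ε * (6 * j - 1) →
        (∃ n, ε * (1 + 6 * j) = 2 * n + 1) → ∃ x n : ℤ, 4 * x ^ 2 + 2 * e * x + c = n ^ 2 + n + 1 := by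
      rintro ε x hε hx ⟨n, hn⟩
      refine ⟨x, n, ?_⟩
      have h1 : (4 * x + e) ^ 2 = (6 * j - 1) ^ 2 := by rw [hx, mul_pow, hε, one_mul]
      have h2 : (2 * n + 1) ^ 2 = (1 + 6 * j) ^ 2 := by rw [← hn, mul_pow, hε, one_mul]
      have h3 : 4 * (4 * x ^ 2 + 2 * e * x + c) = 4 * (n ^ 2 + n + 1) := by linarith
      linarith
    have h4 : (6 * j - 1 - e) % 4 = 0 ∨ (-(6 * j - 1) - e) % 4 = 0 := by omega
    rcases h4 with h4 | h4
    · exact hval 1 ((6 * j - 1 - e) / 4) (by norm_num) (by omega) ⟨3 * j, by ring⟩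
    · exact hval (-1) ((-(6 * j - 1) - e) / 4) (by norm_num) (by omega) ⟨-3 * j - 1, by ring⟩

/-- the arithmetic of the odd case -/
theorem arith_odd {b c : ℤ} (hb : b % 2 = 1) :
    ∃ x n : ℤ, 8 * x ^ 2 + 2 * x * b ^ 2 + b ^ 2 * (2 * c) = 2 * n ^ 2 + 2 * n + 2 := by
  obtain ⟨i, hi⟩ : ∃ i, b = 2 * i + 1 := ⟨b / 2, by omega⟩
  obtain ⟨j, hj⟩ : ∃ j, j = i ^ 2 + i := ⟨_, rfl⟩
  have hbj : b ^ 2 = 4 * j + 1 := by rw [hi, hj]; ring
  obtain ⟨x, hx⟩ : ∃ x, x = b ^ 2 * c - 1 - j - j ^ 2 := ⟨_, rfl⟩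
  refine ⟨x, 2 * x + j, ?_⟩
  have h1 : b ^ 2 * c = x + 1 + j + j ^ 2 := by rw [hx]; ring
  have h2 : b ^ 2 * (2 * c) = 2 * (b ^ 2 * c) := by ring
  rw [h2, h1, hbj]
  ring

/-- **A plane and a class whose discriminant is not divisible by four, or with odd `D(P, T)`.** -/
theorem of_plane (hH : H.IsCubic) {P T : Fin 23 → ℤ} (hP : H.IsPl P) (hT : H.IsHodge T)
    (h : ¬ (4 : ℤ) ∣ H.disc T ∨ Odd (D H P T)) : IsHilb H ∧ H.HasK3 := by
  have hP8 := plane_disc hH hP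
  obtain ⟨c, hc⟩ := even_disc hH T
  rcases Int.even_or_odd (D H P T) with hev | hodd
  · have h4 := h.resolve_right (by rwa [Int.not_odd_iff_even])
    obtain ⟨e, he⟩ := hev
    have hc2 : c % 2 = 1 := by
      by_contra hcon
      apply h4
      rw [hc]
      exact ⟨c / 2, by omega⟩
    have h3 : ∃ t, 4 * c - e ^ 2 = 3 * t := by
      have e1 : D H P T = 3 * H.ip P T - H.ip T H.h := by rw [D, hP.2.1, one_mul]
      have e2 : H.disc T = 3 * H.ip T T - H.ip T H.h ^ 2 := by rw [disc, hH.comm H.h T]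
      have e3 : 4 * (4 * c - e ^ 2) = 8 * H.disc T - D H P T ^ 2 := by rw [hc, he]; ring
      have e4 : 4 * (4 * c - e ^ 2) =
          3 * (8 * H.ip T T - 3 * H.ip T H.h ^ 2 - 3 * H.ip P T ^ 2 + 2 * H.ip P T * H.ip T H.h) := by
        rw [e3, e1, e2]; ring
      obtain ⟨u, hu⟩ : ∃ u, u = 8 * H.ip T T - 3 * H.ip T H.h ^ 2 - 3 * H.ip P T ^ 2 +
        2 * H.ip P T * H.ip T H.h := ⟨_, rfl⟩
      rw [← hu] at e4
      exact ⟨(4 * c - e ^ 2) / 3, by omega⟩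
    obtain ⟨t, ht⟩ := h3
    obtain ⟨x, n, hxn⟩ := arith_even hc2 ht
    refine of_val hH (v := x • P + (1 : ℤ) • T) (n := n)
      (H.isHodge_add (H.isHodge_smul _ hP.1) (H.isHodge_smul _ hT)) ?_
    rw [disc_comb2 hH, hP8, hc, he]
    linarith
  · obtain ⟨x, n, hxn⟩ := arith_odd (b := D H P T) (c := c) (Int.odd_iff.1 hodd)
    refine of_val hH (v := x • P + D H P T • T) (n := n)
      (H.isHodge_add (H.isHodge_smul _ hP.1) (H.isHodge_smul _ hT)) ?_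
    rw [disc_comb2 hH, hP8, hc]
    linarith

theorem hilb_four {v : Fin 23 → ℤ} {a n : ℤ} (h : a ^ 2 * H.disc v = 2 * n ^ 2 + 2 * n + 2) :
    ¬ (4 : ℤ) ∣ H.disc v := four_not_dvd h

/-- **The criterion.** -/
theorem plane_iff (hH : H.IsCubic) {P : Fin 23 → ℤ} (hP : H.IsPl P) :
    (H.HasK3 ↔ ∃ v, H.IsHodge v ∧ ¬ (4 : ℤ) ∣ H.disc v) ∧
    (IsHilb H ↔ ∃ v, H.IsHodge v ∧ ¬ (4 : ℤ) ∣ H.disc v) :=
  ⟨⟨fun ⟨v, hv, _, hadm⟩ => ⟨v, hv, hadm.2.1⟩, fun ⟨_, hv, h4⟩ => (of_plane hH hP hv (Or.inl h4)).2⟩,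
    ⟨fun ⟨v, hv, _, _, _, _, h⟩ => ⟨v, hv, four_not_dvd h⟩,
      fun ⟨_, hv, h4⟩ => (of_plane hH hP hv (Or.inl h4)).1⟩⟩

end Pool.Agent.Q53.LFB
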